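import Pool.Agent.W560.HP.Stm

/-! Project HP (helper560), part CHART. -/

set_option autoImplicit false

namespace W99.HP

open Finset Polynomial
open W560.Sep (dt dt_map dt_congr eq_zero_of_dt)
open W560.HP (g)

/-- the matrix of the contact system with the two rows `t a`, `t b` -/
noncomputable def M {A : Type*} [CommRing A] (m a b : ℕ) (r : ℕ → A) (l j : ℕ) : A :=
  if l < m then (g m r j).coeff l
  else if l = m then (if j = a then 1 else 0) else (if j = b then 1 else 0)

theorem g_map {A B : Type*} [CommRing A] [CommRing B] (φ : A →+* B) (m : ℕ) (r : ℕ → A) (j : ℕ) :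
    (g m r j).map φ = g m (fun j => φ (r j)) j := by
  simp [g]

theorem M_map {A B : Type*} [CommRing A] [CommRing B] (φ : A →+* B) (m a b : ℕ) (r : ℕ → A)
    (r' : ℕ → B) (h : ∀ j, φ (r j) = r' j) (l j : ℕ) :
    φ (M m a b r l j) = M m a b r' l j := by
  have hr : r' = fun j => φ (r j) := by
    funext j
    exact (h j).symm
  unfold M
  split_ifs with h1 h2 h3 h4
  · rw [hr, ← g_map, Polynomial.coeff_map]
  · exact map_one φ
  · exact map_zero φ
  · exact map_one φ
  · exact map_zero φ

/-- the vectors killed by `M` -/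
theorem M_mul {A : Type*} [CommRing A] (m a b : ℕ) (ha : a ≤ m + 1) (hb : b ≤ m + 1) (r t : ℕ → A) :
    (∀ l < m + 2, ∑ j ∈ range (m + 2), M m a b r l j * t j = 0) ↔
    ((∀ l < m, ∑ j ∈ range (m + 2), (g m r j).coeff l * t j = 0) ∧ t a = 0 ∧ t b = 0) := by
  have h1 : ∀ l < m, ∑ j ∈ range (m + 2), M m a b r l j * t j
      = ∑ j ∈ range (m + 2), (g m r j).coeff l * t j := by
    intro l hl
    refine Finset.sum_congr rfl fun j _ => ?_
    simp [M, hl]
  have h2 : ∑ j ∈ range (m + 2), M m a b r m j * t j = t a := by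
    rw [Finset.sum_eq_single a]
    · simp [M]
    · intro j _ hj
      simp [M, hj]
    · intro h
      exact absurd (Finset.mem_range.2 (by omega)) h
  have h3 : ∑ j ∈ range (m + 2), M m a b r (m + 1) j * t j = t b := by
    rw [Finset.sum_eq_single b]
    · simp [M]
    · intro j _ hj
      simp [M, hj]
    · intro h
      exact absurd (Finset.mem_range.2 (by omega)) h
  constructor
  · intro h
    refine ⟨fun l hl => ?_, ?_, ?_⟩
    · rw [← h1 l hl]
      exact h l (by omega)
    · rw [← h2]
      exact h m (by omega)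
    · rw [← h3]
      exact h (m + 1) (by omega)
  · rintro ⟨ha1, ha2, ha3⟩ l hl
    rcases Nat.lt_or_ge l m with hlm | hlm
    · rw [h1 l hlm]
      exact ha1 l hlm
    · obtain rfl | rfl : l = m ∨ l = m + 1 := by omega
      · rw [h2]; exact ha2
      · rw [h3]; exact ha3

/-- an injective square matrix has nonzero determinant -/
theorem dt_ne_zero {K : Type*} [Field K] (N : ℕ) (f : ℕ → ℕ → K)
    (h : ∀ v : ℕ → K, (∀ i < N, ∑ j ∈ range N, f i j * v j = 0) → ∀ j < N, v j = 0) :
    dt N f ≠ 0 := by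
  intro h0
  unfold dt at h0
  obtain ⟨v, hv0, hv⟩ := Matrix.exists_mulVec_eq_zero_iff.2 h0
  apply hv0
  let w : ℕ → K := fun j => if hj : j < N then v ⟨j, hj⟩ else 0
  have hw : ∀ j : Fin N, w j = v j := fun j => dif_pos j.2
  have key := h w (by
    intro i hi
    have e := congrFun hv ⟨i, hi⟩
    rw [Matrix.mulVec, dotProduct] at e
    rw [← Fin.sum_univ_eq_sum_range (fun j => f i j * w j)]
    simpa [hw] using e)
  ext j
  rw [← hw j]
  exact key j j.2

theorem chart (hB : W560.HP.S_BRK) : W560.HP.S_CHART := by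
  intro k Ω _ _ _ _ m r hm hr hr0 a ha b hb hab t ht hta htb
  obtain ⟨E, _, _, rE, v, hra, hva, hrE0, hcon, hv, huniq, -⟩ := hB k m a hm ha
  let X : ℕ → MvPolynomial (Fin (m + 2)) k := fun j =>
    if h : j < m + 2 then MvPolynomial.X ⟨j, h⟩ else 0
  have hXE : ∀ j, (MvPolynomial.aeval (fun j : Fin (m + 2) => rE j) : _ →ₐ[k] E).toRingHom (X j)
      = rE j := by
    intro j
    by_cases h : j < m + 2
    · simp [X, h]
    · simp [X, h, hrE0 j (by omega)]
  have hXr : ∀ j, (MvPolynomial.aeval (fun j : Fin (m + 2) => r j) : _ →ₐ[k] Ω).toRingHom (X j)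
      = r j := by
    intro j
    by_cases h : j < m + 2
    · simp [X, h]
    · simp [X, h, hr0 j (by omega)]
  have h1 : dt (m + 2) (M m a b rE) ≠ 0 := by
    refine dt_ne_zero _ _ fun w hw j hj => ?_
    obtain ⟨h1, h2, h3⟩ := (M_mul m a b ha hb rE w).1 hw
    exact huniq b hb (fun e => hab e.symm) w h1 h2 h3 j (by omega)
  have h2 : dt (m + 2) (M m a b X) ≠ 0 := by
    intro h0
    apply h1
    have := dt_map ((MvPolynomial.aeval (fun j : Fin (m + 2) => rE j) : _ →ₐ[k] E).toRingHom)
      (m + 2) (M m a b X)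
    rw [h0, map_zero] at this
    rw [this]
    exact dt_congr fun i _ j _ => (M_map _ m a b X rE hXE i j).symm
  have h3 : dt (m + 2) (M m a b r) ≠ 0 := by
    intro h0
    apply h2
    have := dt_map ((MvPolynomial.aeval (fun j : Fin (m + 2) => r j) : _ →ₐ[k] Ω).toRingHom)
      (m + 2) (M m a b X)
    rw [dt_congr (fun i _ j _ => M_map _ m a b X r hXr i j), h0] at this
    exact (injective_iff_map_eq_zero _).1 hr _ this
  intro j hj
  exact eq_zero_of_dt (m + 2) (M m a b r) h3 t
    ((M_mul m a b ha hb r t).2 ⟨ht, hta, htb⟩) j (by omega)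

end W99.HP
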